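import Pool.Agent.Helper99.LZ.Goals

/-!
PROJECT C2 (MP_2b0227_gt), packet MT-CORE: the product theorem for strict columns.
-/

set_option autoImplicit false

open Finset Pool.Agent.Helper99.LZ

namespace Pool.Agent.Helper98.LZ

variable {V : Type} [AddCommGroup V] [Module ℝ V]

theorem full_apply (S : Ctx V) (p q : ℤ) (u v : V × ℝ) :
    S.full p q u v = S.D p q u.1 v.1 + u.2 * (S.P p v.1 - S.Q q v.1)
      + v.2 * (S.P p u.1 - S.Q q u.1) + u.2 * v.2 * S.g p q := rfl

theorem col_of_le (S : Ctx V) {p q : ℤ} (h : q ≤ p + 1) : S.col p q = S.full p q := by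
  unfold Ctx.col; rw [if_pos h]

theorem col_of_not (S : Ctx V) {p q : ℤ} (h : ¬ q ≤ p + 1) (u v : V × ℝ) :
    S.col p q u v = S.D p q u.1 v.1 := by
  unfold Ctx.col; rw [if_neg h]; rfl

theorem col_inl (S : Ctx V) (p q : ℤ) (u v : V) :
    S.col p q (u, (0 : ℝ)) (v, (0 : ℝ)) = S.D p q u v := by
  by_cases h : q ≤ p + 1
  · rw [col_of_le S h, full_apply]; simp
  · rw [col_of_not S h]

theorem D_XX (S : Ctx V) (hr : S.Rel) (p q : ℤ) : S.D p q S.X S.X = S.pr.H (p + 2) q := by
  rw [hr.DX, hr.PX, show p + 1 + 1 = p + 2 by ring]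
  rfl

theorem col_sym (S : Ctx V) (hr : S.Rel) (p q : ℤ) : Sym (S.col p q) := by
  intro u v
  by_cases h : q ≤ p + 1
  · rw [col_of_le S h, full_apply, full_apply, hr.sym p q u.1 v.1]; ring
  · rw [col_of_not S h, col_of_not S h, hr.sym p q u.1 v.1]

theorem col_onePos (S : Ctx V) {a b : ℤ} (hS : S.HH a b) {p q : ℤ} (h : q - 2 ≤ p) :
    OnePos (S.col p q) := by
  by_cases h1 : q ≤ p + 1
  · rw [col_of_le S h1]; exact hS.lev p q (by omega)
  · obtain rfl : p = q - 2 := by omega
    intro u v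
    rw [col_of_not S h1, col_of_not S h1, col_of_not S h1]
    exact hS.lev2 q u.1 v.1

theorem sv_add (S : Ctx V) (ζ ζ' : ℤ → ℤ → ℝ) (xN xI nN nI xN' xI' nN' nI' : ℤ → ℝ) (i i' : ℤ) :
    S.sv (ζ + ζ') (xN + xN') (xI + xI') (nN + nN') (nI + nI') i i' =
      S.sv ζ xN xI nN nI i i' + S.sv ζ' xN' xI' nN' nI' i i' := by
  unfold Ctx.sv oc xc nc
  ext
  · simp only [Prod.fst_add, Pi.add_apply]
    split_ifs <;> module
  · simp only [Prod.snd_add, Pi.add_apply]
    split_ifs <;> ring

theorem sv_smul (S : Ctx V) (c : ℝ) (ζ : ℤ → ℤ → ℝ) (xN xI nN nI : ℤ → ℝ) (i i' : ℤ) :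
    S.sv (c • ζ) (c • xN) (c • xI) (c • nN) (c • nI) i i' = c • S.sv ζ xN xI nN nI i i' := by
  unfold Ctx.sv oc xc nc
  ext
  · simp only [Prod.smul_fst, Pi.smul_apply, smul_eq_mul]
    split_ifs <;> module
  · simp only [Prod.smul_snd, Pi.smul_apply, smul_eq_mul]
    split_ifs <;> ring

/-- index set of the pieces -/
noncomputable def CS (a b : ℤ) (m : ℤ → ℤ → ℝ) : Finset (ℤ × ℤ) :=
  (Icc a b ×ˢ Icc a b).filter (fun c => m c.1 c.2 ≠ 0)

theorem mem_CS {a b : ℤ} {m : ℤ → ℤ → ℝ} {c : ℤ × ℤ} (h : c ∈ CS a b m) :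
    c.1 ∈ Icc a b ∧ c.2 ∈ Icc a b ∧ m c.1 c.2 ≠ 0 := by
  unfold CS at h
  rw [mem_filter, mem_product] at h
  exact ⟨h.1.1, h.1.2, h.2⟩

theorem sum_CS (a b : ℤ) (m : ℤ → ℤ → ℝ) (f : ℤ → ℤ → ℝ) :
    ∑ c : CS a b m, m c.1.1 c.1.2 * f c.1.1 c.1.2 =
      ∑ i ∈ Icc a b, ∑ i' ∈ Icc a b, m i i' * f i i' := by
  rw [Finset.sum_coe_sort (CS a b m) (fun c => m c.1 c.2 * f c.1 c.2)]
  unfold CS
  rw [Finset.sum_filter_of_ne, Finset.sum_product]
  intro x _ h h0
  rw [h0, zero_mul] at h
  exact h rfl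

/-- extension by zero -/
noncomputable def extz (a b : ℤ) (m : ℤ → ℤ → ℝ) : (CS a b m → ℝ) →ₗ[ℝ] (ℤ → ℤ → ℝ) where
  toFun z := fun i i' => if h : (i, i') ∈ CS a b m then z ⟨(i, i'), h⟩ else 0
  map_add' := by
    intro z z'
    funext i i'
    simp only [Pi.add_apply]
    split_ifs <;> simp
  map_smul' := by
    intro c z
    funext i i'
    simp only [Pi.smul_apply, RingHom.id_apply, smul_eq_mul]
    split_ifs <;> simp

theorem extz_apply (a b : ℤ) (m : ℤ → ℤ → ℝ) (z : CS a b m → ℝ) (c : CS a b m) :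
    extz a b m z c.1.1 c.1.2 = z c := by
  show (if h : (c.1.1, c.1.2) ∈ CS a b m then z ⟨(c.1.1, c.1.2), h⟩ else 0) = z c
  rw [dif_pos (show (c.1.1, c.1.2) ∈ CS a b m from c.2)]

theorem core (h0 : StmtOP) (h1 : StmtIDX) (h2 : StmtPAR) (h3 : StmtID) (h4 : StmtQC)
    (h5 : StmtQUAD) (h6 : StmtCPL) : StmtCORE := by
  intro V _ _ S T a b a₂ b₂ n m hS hT hg hm hst
  obtain ⟨op1, op2, op3, fam0, fam⟩ := h0
  have hrel : S.Rel := hS.toRel
  have hreg : T.Reg a b := hT.toReg
  obtain ⟨xN, xI, nN, nI, hpar⟩ := h2 T a b m (optR S.pr n) hreg hg hm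
  obtain ⟨m₂, hm₂⟩ := h6 S.pr a₂ b₂ hS.reg
  -- the pieces
  have hw : ∀ c : CS a b m, 0 < m c.1.1 c.1.2 := fun c =>
    lt_of_le_of_ne (hm.nn _ _) (Ne.symm (mem_CS c.2).2.2)
  have hle : ∀ c : CS a b m, a ≤ c.1.1 ∧ c.1.1 ≤ c.1.2 ∧ c.1.2 ≤ b := fun c =>
    hm.supp _ _ (mem_CS c.2).2.2
  let M : CS a b m → (V × ℝ) →ₗ[ℝ] (V × ℝ) →ₗ[ℝ] ℝ := fun c => S.col (n - 2 - c.1.1) (n - c.1.2)
  let w : CS a b m → ℝ := fun c => m c.1.1 c.1.2
  let e : V →ₗ[ℝ] V × ℝ := LinearMap.inl ℝ V ℝ
  let s : (CS a b m → ℝ) →ₗ[ℝ] (CS a b m → V × ℝ) :=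
    { toFun := fun z c => S.sv (extz a b m z) (xN (extz a b m z)) (xI (extz a b m z))
        (nN (extz a b m z)) (nI (extz a b m z)) c.1.1 c.1.2
      map_add' := by
        intro z z'
        funext c
        simp only [map_add, Pi.add_apply]
        exact sv_add S _ _ _ _ _ _ _ _ _ _ _ _
      map_smul' := by
        intro r z
        funext c
        simp only [map_smul, Pi.smul_apply, RingHom.id_apply]
        exact sv_smul S _ _ _ _ _ _ _ _ }
  have hsum : ∀ z : CS a b m → ℝ, ∑ c, w c * z c =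
      ∑ i ∈ Icc a b, ∑ i' ∈ Icc a b, m i i' * extz a b m z i i' := by
    intro z
    rw [← sum_CS a b m (extz a b m z)]
    exact Finset.sum_congr rfl fun c _ => by rw [extz_apply]
  have hXX : ∀ c : CS a b m, 0 < M c (e S.X) (e S.X) := by
    intro c
    show 0 < S.col (n - 2 - c.1.1) (n - c.1.2) (S.X, (0 : ℝ)) (S.X, (0 : ℝ))
    rw [col_inl, D_XX S hrel]
    have := hle c
    exact hst.pos _ _ (by omega) (by omega) (by omega) (by omega)
  have hone : ∀ c : CS a b m, OnePos (M c) := by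
    intro c
    have := hle c
    exact col_onePos S hS (by omega)
  have hprod : ∀ u v : V, S.prod m a b n u v = ∑ c, w c * M c (e u) (e v) := by
    intro u v
    have := sum_CS a b m (fun i i' => S.D (n - 2 - i) (n - i') u v)
    rw [show (∑ c, w c * M c (e u) (e v)) =
      ∑ c : CS a b m, m c.1.1 c.1.2 * S.D (n - 2 - c.1.1) (n - c.1.2) u v from
        Finset.sum_congr rfl fun c _ => by
          show m c.1.1 c.1.2 * S.col (n - 2 - c.1.1) (n - c.1.2) (u, (0 : ℝ)) (v, (0 : ℝ)) = _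
          rw [col_inl], this]
    unfold Ctx.prod
    simp only [LinearMap.sum_apply, LinearMap.smul_apply, smul_eq_mul]
  have hne : Nonempty (CS a b m) := by
    have hF := hreg.Fpos a (le_refl _) hreg.ab
    have e1 : T.F a = T.L a - T.R a := by
      unfold Pr.F Pr.H Pr.L Pr.R
      have := hreg.lo (a - 1) (by omega)
      rw [this.1, this.2]; ring
    have hL : 0 < T.L a := by
      have := hreg.R0 a
      linarith
    rw [← hm.row a] at hL
    obtain ⟨i', hi', hpos⟩ := Finset.exists_ne_zero_of_sum_ne_zero (ne_of_gt hL)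
    refine ⟨⟨(a, i'), ?_⟩⟩
    unfold CS
    rw [mem_filter, mem_product]
    exact ⟨⟨by rw [mem_Icc]; exact ⟨le_refl _, le_of_lt hreg.ab⟩, hi'⟩, hpos⟩
  have hP : ∀ z : CS a b m → ℝ, ∑ c, w c * z c = 0 →
      Par T a b m (optR S.pr n) (extz a b m z) (xN (extz a b m z)) (xI (extz a b m z))
        (nN (extz a b m z)) (nI (extz a b m z)) := by
    intro z hz
    rw [hsum] at hz
    exact hpar _ hz
  have key := h1 (CS a b m) (V × ℝ) V M w e S.X s hne
    (fun c => col_sym S hrel _ _) hw hXX (fun c u => hone c _ u (hXX c))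
    (by
      intro z hz v
      have := h3 V S T n a b m (optR S.pr n) (extz a b m z) _ _ _ _ hrel hreg hm (hP z hz) v
      rw [← sum_CS a b m (fun i i' => S.col (n - 2 - i) (n - i') (v, 0)
        (S.sv (extz a b m z) (xN (extz a b m z)) (xI (extz a b m z))
        (nN (extz a b m z)) (nI (extz a b m z)) i i'))] at this
      exact this)
    (by
      intro z hz
      have h7 := h4 V S T n a b m (optR S.pr n) (extz a b m z) _ _ _ _ hrel hreg hm (hP z hz)
      have h8 := h5 T S.pr n a b a₂ b₂ m m₂ S.G (extz a b m z) (xN (extz a b m z))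
        (xI (extz a b m z)) (nN (extz a b m z)) (nI (extz a b m z)) hS.reg hm₂
        (fun q => max_le (hrel.Gnn q) (hrel.Gh q)) ⟨hT, hm, hP z hz⟩
      rw [← h7, ← sum_CS a b m (fun i i' => S.col (n - 2 - i) (n - i')
        (S.sv (extz a b m z) (xN (extz a b m z)) (xI (extz a b m z))
        (nN (extz a b m z)) (nI (extz a b m z)) i i')
        (S.sv (extz a b m z) (xN (extz a b m z)) (xI (extz a b m z))
        (nN (extz a b m z)) (nI (extz a b m z)) i i'))] at h8
      exact h8)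
    (by
      intro z hz hc
      have hp := hP z hz
      funext c
      obtain ⟨k1, k2⟩ := hc c
      have hrad := op3 (V × ℝ) (M c) (e S.X) (s z c) (col_sym S hrel _ _) (hone c) (hXX c) k1 k2
      have hcl := hle c
      show z c = 0
      rw [← extz_apply a b m z c]
      have hs : s z c = (-(xc (xN (extz a b m z)) (xI (extz a b m z)) c.1.1 c.1.2) • S.X
          + (nc (nN (extz a b m z)) (nI (extz a b m z)) c.1.1 c.1.2) • S.Y,
          oc (extz a b m z) (xN (extz a b m z)) (xI (extz a b m z))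
        (nN (extz a b m z)) (nI (extz a b m z)) c.1.1 c.1.2) := by
        show S.sv _ _ _ _ _ _ _ = _
        unfold Ctx.sv
        rfl
      rw [hs] at hrad
      by_cases hi : c.1.1 = c.1.2
      · -- instants
        have hp0 : n - 2 - c.1.1 = (n - c.1.2) - 2 := by omega
        have hn1 : ¬ (n - c.1.2 ≤ n - 2 - c.1.1 + 1) := by omega
        have := hst.rad2 (n - c.1.2) (by omega) (by omega)
          (-(xc (xN (extz a b m z)) (xI (extz a b m z)) c.1.1 c.1.2))
          (nc (nN (extz a b m z)) (nI (extz a b m z)) c.1.1 c.1.2) (by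
            intro v
            have h9 := hrad (v, 0)
            have h10 : M c = S.col (n - 2 - c.1.1) (n - c.1.2) := rfl
            rw [h10, col_of_not S hn1, hp0] at h9
            exact h9)
        obtain ⟨z1, z2⟩ := this
        have hmk := (mem_CS c.2).2.2
        rw [← hi, hm.inst] at hmk
        have hneg : T.h c.1.1 < 0 := by
          by_contra hh
          apply hmk
          unfold Pr.al
          exact max_eq_left (by linarith [not_lt.mp hh])
        have hom := hp.om c.1.1 hneg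
        unfold xc at z1
        unfold nc at z2
        rw [if_pos hi] at z1 z2
        rw [← hi] at z2 ⊢
        rw [hom, z2]
        linarith
      · have hn1 : n - c.1.2 ≤ n - 2 - c.1.1 + 1 := by omega
        have := hst.rad (n - 2 - c.1.1) (n - c.1.2) (by omega) (by omega) (by omega) (by omega)
          (-(xc (xN (extz a b m z)) (xI (extz a b m z)) c.1.1 c.1.2))
          (nc (nN (extz a b m z)) (nI (extz a b m z)) c.1.1 c.1.2)
          (oc (extz a b m z) (xN (extz a b m z)) (xI (extz a b m z))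
        (nN (extz a b m z)) (nI (extz a b m z)) c.1.1 c.1.2) (by
            intro v
            have h9 := hrad v
            have h10 : M c = S.col (n - 2 - c.1.1) (n - c.1.2) := rfl
            rw [h10, col_of_le S hn1] at h9
            exact h9)
        obtain ⟨z1, z2, z3⟩ := this
        unfold oc at z3
        rw [z2] at z3
        linarith)
  refine op1 V (S.prod m a b n) S.X ?_ ?_ ?_
  · intro u v
    rw [hprod, hprod]
    exact Finset.sum_congr rfl fun c _ => by
      have : M c (e u) (e v) = M c (e v) (e u) := col_sym S hrel _ _ _ _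
      rw [this]
  · rw [hprod]
    obtain ⟨c0⟩ := hne
    exact Finset.sum_pos (fun c _ => mul_pos (hw c) (hXX c)) ⟨c0, mem_univ _⟩
  · intro v
    rw [hprod, hprod, hprod]
    exact key v

end Pool.Agent.Helper98.LZ
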